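import Pool.Agent.Malc.E.T3

/-! # Symmetry of the graph over the annihilator -/

set_option autoImplicit false
set_option linter.unusedSectionVars false

namespace Pool.Agent.Malc

universe u v

open DerAux

namespace EpsV

theorem eq_neg_self (F : Type u) [Field F] [CharZero F] {B : Type v} [AddCommGroup B] [Module F B]
    {a : B} (h : a = -a) : a = 0 := by
  have h2 : (2 : F) • a = 0 := by
    rw [two_smul]
    nth_rewrite 1 [h]
    rw [neg_add_cancel]
  exact (smul_eq_zero.1 h2).resolve_left two_ne_zero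

section ann

variable {F : Type u} [Field F] [CharZero F] {B : Type v} [NonUnitalNonAssocRing B] [Module F B]
  [IsScalarTower F B B] [SMulCommClass F B B]

variable {g : B × (B → B → B)}

theorem ann_symm (h : IsMalcev B) (hg : g ∈ Gr F B) (hk : ∀ z, g.1 * z = 0) (x y : B) :
    g.2 y x = g.2 x y := by
  have h1 := Gr_F1 h hg x y
  have h2 : Jac g.1 x y = 0 := by
    unfold Jac
    rw [hk, zero_mul, h.anti (x * y), hk, h.anti y, hk, neg_zero, zero_mul, add_zero, add_zero]
  rw [h2, hk, smul_zero, smul_zero, add_zero] at h1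
  exact sub_eq_zero.1 h1

theorem ann_mul (h : IsV B) (hg : g ∈ Gr F B) (hk : ∀ z, g.1 * z = 0) (z y x : B) :
    g.2 (z * y) x = 0 := by
  have hm : ∀ z y x : B, g.2 (z * y) x = g.2 (z * x) y := by
    intro z y x
    refine ann_symm (F := F) (g := (g.1 * z, fun y x => g.2 (z * y) x)) h.toIsMalcev
      (Gr_m h hg z) ?_ x y
    intro t
    show (g.1 * z) * t = 0
    rw [hk, zero_mul]
  have hs : ∀ z y x : B, g.2 (z * y) x = - g.2 (y * z) x := by
    intro z y x
    obtain ⟨f, hf⟩ := Gr_lin_y hg x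
    rw [← hf, ← hf, h.anti z y, map_neg]
  refine eq_neg_self F ?_
  calc g.2 (z * y) x = - g.2 (y * z) x := hs z y x
    _ = - g.2 (y * x) z := by rw [hm y z x]
    _ = g.2 (x * y) z := by rw [hs x y z]
    _ = g.2 (x * z) y := hm x y z
    _ = - g.2 (z * x) y := hs x z y
    _ = - g.2 (z * y) x := by rw [hm z y x]

theorem ann_mul' (h : IsV B) (hg : g ∈ Gr F B) (hk : ∀ z, g.1 * z = 0) (z y x : B) :
    g.2 x (z * y) = 0 := by
  rw [ann_symm (F := F) h.toIsMalcev hg hk]
  exact ann_mul h hg hk z y x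

theorem ann_kill (h : IsV B) (hg : g ∈ Gr F B) (hk : ∀ z, g.1 * z = 0) (y x z : B) :
    g.2 y x * z = 0 := by
  rw [← Gr_f6 h hg]
  exact ann_mul' h hg hk x z y

end ann

/-- the conditions on the sum of the Jacobians -/
def KC {F : Type u} [Field F] (k : K3 F) : Prop :=
  ∀ (B : Type u) [NonUnitalNonAssocRing B] [Module F B] [IsScalarTower F B B]
    [SMulCommClass F B B], IsV B → ∀ x : ℕ → B, (∀ z, jac k x * z = 0) ∧
      ∀ (l : ℕ) (u w : B), (jac k (X1 x l (u * w))).b = 0

section psi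

variable {F : Type u} [Field F] [CharZero F] {k : K3 F} (hk : KC k)
  {B : Type u} [NonUnitalNonAssocRing B] [Module F B]
  [IsScalarTower F B B] [SMulCommClass F B B] (hB : IsV B)

include hk hB

theorem psi_symm (x : ℕ → B) (y z : B) : psi k x y z = psi k x z y :=
  ann_symm hB.toIsMalcev (jp_mem k x) (hk B hB x).1 z y

theorem psi_mul (x : ℕ → B) (u w z : B) : psi k x (u * w) z = 0 :=
  ann_mul hB (jp_mem k x) (hk B hB x).1 u w z

theorem psi_mul' (x : ℕ → B) (u w z : B) : psi k x z (u * w) = 0 :=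
  ann_mul' hB (jp_mem k x) (hk B hB x).1 u w z

theorem psi_kill (x : ℕ → B) (y z w : B) : psi k x y z * w = 0 :=
  ann_kill hB (jp_mem k x) (hk B hB x).1 y z w

/-- the adjoint of the sum of the Jacobians -/
noncomputable def jst (k : K3 F) (x : ℕ → B) (l : ℕ) (v : B) : B :=
  ∑ t ∈ k.support, k t • (adjs x l t.1 (Jac v (evw x t.2.1) (evw x t.2.2)) +
    adjs x l t.2.1 (Jac v (evw x t.2.2) (evw x t.1)) +
    adjs x l t.2.2 (Jac v (evw x t.1) (evw x t.2.1)))

/-- the operators over the adjoint -/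
noncomputable def gst (k : K3 F) (x : ℕ → B) (l : ℕ) (v y z : B) : B :=
  ∑ t ∈ k.support, k t • (P108 v (evw x t.2.1) (evw x t.2.2) (dw x l y t.1) z +
    P108 v (evw x t.2.2) (evw x t.1) (dw x l y t.2.1) z +
    P108 v (evw x t.1) (evw x t.2.1) (dw x l y t.2.2) z)

omit hk in
theorem gst_mem (k : K3 F) (x : ℕ → B) (l : ℕ) (v : B) :
    ((jst k x l v, fun y z => gst k x l v y z) : B × (B → B → B)) ∈ Gr F B := by
  have h1 : ((jst k x l v, fun y z => gst k x l v y z) : B × (B → B → B)) =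
      ∑ t ∈ k.support, k t • (((adjs x l t.1 (Jac v (evw x t.2.1) (evw x t.2.2)),
          fun y z => P108 v (evw x t.2.1) (evw x t.2.2) (dw x l y t.1) z) : B × (B → B → B)) +
        (adjs x l t.2.1 (Jac v (evw x t.2.2) (evw x t.1)),
          fun y z => P108 v (evw x t.2.2) (evw x t.1) (dw x l y t.2.1) z) +
        (adjs x l t.2.2 (Jac v (evw x t.1) (evw x t.2.1)),
          fun y z => P108 v (evw x t.1) (evw x t.2.1) (dw x l y t.2.2) z)) := by
    apply Prod.ext
    · rw [Prod.fst_sum]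
      rfl
    · rw [Prod.snd_sum]
      funext y z
      rw [Finset.sum_apply, Finset.sum_apply]
      rfl
  rw [h1]
  refine Submodule.sum_mem _ fun t _ => Submodule.smul_mem _ _ ?_
  exact Submodule.add_mem _ (Submodule.add_mem _ (Gr_adjs hB (Gr_J _ _ _) x l t.1)
    (Gr_adjs hB (Gr_J _ _ _) x l t.2.1)) (Gr_adjs hB (Gr_J _ _ _) x l t.2.2)

omit hk in
theorem gG_gst (k : K3 F) (x : ℕ → B) (l : ℕ) (y v z : B) : gG k x l y v z = - gst k x l v y z := by
  unfold gG gst
  rw [← Finset.sum_neg_distrib]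
  refine Finset.sum_congr rfl fun t _ => ?_
  have hM := hB.toIsMalcev
  rw [← smul_neg, P14 hM (dw x l y t.1) (evw x t.2.1) (evw x t.2.2) v z,
    P14 hM (dw x l y t.2.1) (evw x t.2.2) (evw x t.1) v z,
    P14 hM (dw x l y t.2.2) (evw x t.1) (evw x t.2.1) v z,
    ← P_cyc hM (evw x t.1) (dw x l y t.2.1) (evw x t.2.2) v z,
    P_cyc hM (dw x l y t.2.2) (evw x t.1) (evw x t.2.1) v z]
  congr 1
  abel

/-- the adjoint is in the annihilator -/
theorem jst_kill (x : ℕ → B) (l : ℕ) (v z : B) : jst k x l v * z = 0 := by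
  rw [← Module.forall_dual_apply_eq_zero_iff F]
  intro m
  have hM := hB.toIsMalcev
  set X : ℕ → TS F B := fun i => TS.inb F (x i) with hX
  have e1 : (TS.inl m : TS F B) * TS.inb F z = TS.inl (-(m ∘ₗ LinearMap.mulRight F z)) := by
    ext t
    · show (0 : B) * z = 0
      rw [zero_mul]
    · rw [TS.mul_l_apply]
      show - m (t * z) + (0 : B →ₗ[F] F) _ = - m (t * z)
      rw [LinearMap.zero_apply, add_zero]
  have h1 := (hk (TS F B) (TS.isV hB) X).2 l (TS.inl m) (TS.inb F z)
  rw [e1] at h1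
  set m' : B →ₗ[F] F := -(m ∘ₗ LinearMap.mulRight F z) with hm'
  have h2 : (jac k (X1 X l (TS.inl m'))).b =
      ∑ t ∈ k.support, k t • (Jac (dw X l (TS.inl m') t.1) (evw X t.2.1) (evw X t.2.2) +
        Jac (evw X t.1) (dw X l (TS.inl m') t.2.1) (evw X t.2.2) +
        Jac (evw X t.1) (evw X t.2.1) (dw X l (TS.inl m') t.2.2)) := by
    have h3 : (jac k (X1 X l (TS.inl m'))).b = pb F (jac k (X1 X l (TS.inl m'))) := rfl
    rw [h3]
    unfold jac
    rw [map_sum]
    refine Finset.sum_congr rfl fun t _ => ?_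
    rw [map_smul, pb_apply, Jac_b, evw_X1_a, evw_X1_a, evw_X1_a]
    rfl
  rw [h2] at h1
  let lh : TS F B →ₗ[F] F :=
    { toFun := fun z => z.l v
      map_add' := fun _ _ => rfl
      map_smul' := fun _ _ => rfl }
  have h4 := congrArg lh h1
  rw [map_zero, map_sum] at h4
  have hJ : ∀ (w : FreeMagma ℕ) (a b : B),
      lh (Jac (dw X l (TS.inl m') w) (TS.inb F a) (TS.inb F b)) = - m' (adjs x l w (Jac v a b)) := by
    intro w a b
    have h5 : dw X l (TS.inl m') w = TS.inl (dw X l (TS.inl m') w).l := by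
      apply TS.ext
      · exact (dw_inl x l m' w).1
      · rfl
    rw [h5]
    show (Jac (TS.inl (dw X l (TS.inl m') w).l) (TS.inb F a) (TS.inb F b)).l v = _
    rw [(TS.Jac_l hM _ a b).2, (dw_inl x l m' w).2]
  have h5 : ∑ t ∈ k.support, lh (k t • (Jac (dw X l (TS.inl m') t.1) (evw X t.2.1) (evw X t.2.2) +
        Jac (evw X t.1) (dw X l (TS.inl m') t.2.1) (evw X t.2.2) +
        Jac (evw X t.1) (evw X t.2.1) (dw X l (TS.inl m') t.2.2))) = - m' (jst k x l v) := by
    unfold jst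
    rw [map_sum, ← Finset.sum_neg_distrib]
    refine Finset.sum_congr rfl fun t _ => ?_
    rw [map_smul, map_smul, map_add, map_add, map_add, map_add,
      ← Jac_cyc (evw X t.1) (dw X l (TS.inl m') t.2.1) (evw X t.2.2),
      Jac_cyc (dw X l (TS.inl m') t.2.2) (evw X t.1) (evw X t.2.1)]
    rw [hX, inb_evw, inb_evw, inb_evw, ← hX, hJ, hJ, hJ, smul_eq_mul, smul_eq_mul]
    ring
  rw [h5] at h4
  have h6 : m' (jst k x l v) = - m (jst k x l v * z) := rfl
  rw [h6, neg_neg] at h4
  exact h4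

theorem gG_symm (x : ℕ → B) (l : ℕ) (y v z : B) : gG k x l y v z = gG k x l z v y := by
  rw [gG_gst hB, gG_gst hB]
  congr 1
  exact ann_symm hB.toIsMalcev (gst_mem hB k x l v) (jst_kill hk hB x l v) z y

theorem gG_symm' (x : ℕ → B) (l : ℕ) (y v z : B) : gG k x l y v z = gG k x l y z v := by
  rw [gG_eq, gG_eq, psi_symm hk (isV hB)]

theorem gG_symm'' (x : ℕ → B) (l : ℕ) (y v z : B) : gG k x l y v z = gG k x l v y z := by
  rw [gG_symm' hk hB x l y v z, gG_symm hk hB x l y z v, gG_symm' hk hB x l v z y]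

theorem gG_mul (x : ℕ → B) (l : ℕ) (y u w z : B) : gG k x l y (u * w) z = 0 := by
  rw [gG_eq, inc_mul, psi_mul hk (isV hB)]
  rfl

end psi

end EpsV

end Pool.Agent.Malc
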