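import Pool.Agent.Malc.E.Eps
import Pool.Agent.Malc.TSV
import Pool.Agent.Malc.Words2

/-! # Formal combinations of Jacobians of words, derivatives and adjoints -/

set_option autoImplicit false
set_option linter.unusedSectionVars false

namespace Pool.Agent.Malc

universe u v

open DerAux

namespace EpsV

/-- formal combinations of triples of words -/
abbrev K3 (F : Type u) [Field F] : Type u := FreeMagma ℕ × FreeMagma ℕ × FreeMagma ℕ →₀ F

section

variable {F : Type u} [Field F] {B : Type v} [NonUnitalNonAssocRing B] [Module F B]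

/-- the sum of the Jacobians -/
noncomputable def jac (k : K3 F) (x : ℕ → B) : B :=
  ∑ t ∈ k.support, k t • Jac (evw x t.1) (evw x t.2.1) (evw x t.2.2)

/-- the sum of the `P108` -/
noncomputable def psi (k : K3 F) (x : ℕ → B) (q p : B) : B :=
  ∑ t ∈ k.support, k t • P108 (evw x t.1) (evw x t.2.1) (evw x t.2.2) q p

variable [IsScalarTower F B B] [SMulCommClass F B B]

theorem jp_mem (k : K3 F) (x : ℕ → B) :
    ((jac k x, fun y z => psi k x y z) : B × (B → B → B)) ∈ Gr F B := by
  have h1 : ((jac k x, fun y z => psi k x y z) : B × (B → B → B)) =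
      ∑ t ∈ k.support, k t • ((Jac (evw x t.1) (evw x t.2.1) (evw x t.2.2),
        fun y z => P108 (evw x t.1) (evw x t.2.1) (evw x t.2.2) y z) : B × (B → B → B)) := by
    apply Prod.ext
    · rw [Prod.fst_sum]
      rfl
    · rw [Prod.snd_sum]
      funext y z
      rw [Finset.sum_apply, Finset.sum_apply]
      rfl
  rw [h1]
  exact Submodule.sum_mem _ fun t _ => Submodule.smul_mem _ _ (Gr_J _ _ _)

theorem psi_add_q (k : K3 F) (x : ℕ → B) (q q' p : B) :
    psi k x (q + q') p = psi k x q p + psi k x q' p := by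
  obtain ⟨f, hf⟩ := Gr_lin_y (jp_mem k x) p
  have hf' : ∀ y, f y = psi k x y p := hf
  rw [← hf', ← hf', ← hf', map_add]

theorem psi_zero_q (k : K3 F) (x : ℕ → B) (p : B) : psi k x 0 p = 0 := by
  obtain ⟨f, hf⟩ := Gr_lin_y (jp_mem k x) p
  have hf' : ∀ y, f y = psi k x y p := hf
  rw [← hf', map_zero]

theorem psi_add_p (k : K3 F) (x : ℕ → B) (q p p' : B) :
    psi k x q (p + p') = psi k x q p + psi k x q p' := by
  obtain ⟨f, hf⟩ := Gr_lin_x (jp_mem k x) q
  have hf' : ∀ y, f y = psi k x q y := hf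
  rw [← hf', ← hf', ← hf', map_add]

theorem psi_zero_p (k : K3 F) (x : ℕ → B) (q : B) : psi k x q 0 = 0 := by
  obtain ⟨f, hf⟩ := Gr_lin_x (jp_mem k x) q
  have hf' : ∀ y, f y = psi k x q y := hf
  rw [← hf', map_zero]

end

section

variable {B : Type v} [NonUnitalNonAssocRing B]

theorem evw_a (X : ℕ → Eps B) (w : FreeMagma ℕ) : (evw X w).a = evw (fun i => (X i).a) w := by
  induction w using FreeMagma.rec with
  | of i => rfl
  | mul a b iha ihb =>
    show (evw X a * evw X b).a = evw (fun i => (X i).a) a * evw (fun i => (X i).a) b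
    rw [Eps.mul_a, iha, ihb]

/-- the derivative of a word -/
def dw (x : ℕ → B) (l : ℕ) (y : B) (w : FreeMagma ℕ) : B := (evw (X1 x l y) w).b

theorem evw_X1_a (x : ℕ → B) (l : ℕ) (y : B) (w : FreeMagma ℕ) :
    (evw (X1 x l y) w).a = evw x w := evw_a _ _

theorem dw_of (x : ℕ → B) (l : ℕ) (y : B) (i : ℕ) :
    dw x l y (FreeMagma.of i) = if i = l then y else 0 := rfl

theorem dw_mul (x : ℕ → B) (l : ℕ) (y : B) (a b : FreeMagma ℕ) :
    dw x l y (FreeMagma.mul a b) = evw x a * dw x l y b + dw x l y a * evw x b := by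
  show (evw (X1 x l y) a).a * (evw (X1 x l y) b).b + (evw (X1 x l y) a).b * (evw (X1 x l y) b).a = _
  rw [evw_X1_a, evw_X1_a]
  rfl

/-- the adjoint of the word with respect to the letter `l` -/
def adjs (x : ℕ → B) (l : ℕ) : FreeMagma ℕ → B → B
  | .of i, v => if i = l then v else 0
  | .mul a b, v => adjs x l b (v * evw x a) - adjs x l a (v * evw x b)

theorem adjs_of (x : ℕ → B) (l i : ℕ) (v : B) :
    adjs x l (FreeMagma.of i) v = if i = l then v else 0 := rfl

theorem adjs_mul (x : ℕ → B) (l : ℕ) (a b : FreeMagma ℕ) (v : B) :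
    adjs x l (FreeMagma.mul a b) v = adjs x l b (v * evw x a) - adjs x l a (v * evw x b) := rfl

theorem P_cyc (h : IsMalcev B) (a b c d x : B) : P108 b c a d x = P108 a b c d x := by
  have e1 := h.P12 a b c d x
  have e2 := h.P23 b a c d x
  rw [e2, e1, neg_neg]

theorem P14 (h : IsMalcev B) (a b c d x : B) : P108 d b c a x = - P108 a b c d x := by
  rw [h.P34 d b a c x, h.P23 d a b c x, h.P12 a d b c x, h.P23 a b d c x, h.P34 a b c d x]
  simp only [neg_neg]

end

section

variable {F : Type u} [Field F] {B : Type v} [NonUnitalNonAssocRing B] [Module F B]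
  [IsScalarTower F B B] [SMulCommClass F B B]

/-- the derivative of `psi` in the direction of a letter -/
noncomputable def gG (k : K3 F) (x : ℕ → B) (l : ℕ) (y v z : B) : B :=
  ∑ t ∈ k.support, k t • (P108 (dw x l y t.1) (evw x t.2.1) (evw x t.2.2) v z +
    P108 (evw x t.1) (dw x l y t.2.1) (evw x t.2.2) v z +
    P108 (evw x t.1) (evw x t.2.1) (dw x l y t.2.2) v z)

theorem psi_a (k : K3 F) (X : ℕ → Eps B) (V W : Eps B) :
    (psi k X V W).a = psi k (fun i => (X i).a) V.a W.a := by
  have h1 : (psi k X V W).a = pa F (psi k X V W) := rfl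
  rw [h1]
  unfold psi
  rw [map_sum]
  refine Finset.sum_congr rfl fun t _ => ?_
  rw [map_smul]
  show k t • (P108 _ _ _ _ _ : Eps B).a = _
  rw [P108_a, evw_a, evw_a, evw_a]

theorem psi_b (k : K3 F) (x : ℕ → B) (l : ℕ) (y : B) (V W : Eps B) :
    (psi k (X1 x l y) V W).b =
      gG k x l y V.a W.a + psi k x V.b W.a + psi k x V.a W.b := by
  have h1 : (psi k (X1 x l y) V W).b = pb F (psi k (X1 x l y) V W) := rfl
  rw [h1]
  unfold psi gG
  rw [map_sum, ← Finset.sum_add_distrib, ← Finset.sum_add_distrib]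
  refine Finset.sum_congr rfl fun t _ => ?_
  rw [map_smul, pb_apply, P108_b, evw_X1_a, evw_X1_a, evw_X1_a, ← smul_add, ← smul_add]
  rfl

/-- the derivative of `psi` in `B[ε]` -/
theorem gG_eq (k : K3 F) (x : ℕ → B) (l : ℕ) (y v z : B) :
    gG k x l y v z = (psi k (X1 x l y) (inc v) (inc z)).b := by
  rw [psi_b, inc_a, inc_a, inc_b, inc_b, psi_zero_q, psi_zero_p, add_zero, add_zero]

end

section ts

variable {F : Type u} [Field F] [CharZero F] {B : Type u} [NonUnitalNonAssocRing B] [Module F B]
  [IsScalarTower F B B] [SMulCommClass F B B]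

theorem inb_evw (x : ℕ → B) (a : FreeMagma ℕ) :
    evw (fun i => TS.inb F (x i)) a = TS.inb F (evw x a) := by
  induction a using FreeMagma.rec with
  | of i => rfl
  | mul a b iha ihb =>
    show evw (fun i => TS.inb F (x i)) a * evw (fun i => TS.inb F (x i)) b
      = TS.inb F (evw x a * evw x b)
    rw [iha, ihb, TS.inb_mul]

/-- the derivative of a word in the direction of an element of the dual -/
theorem dw_inl (x : ℕ → B) (l : ℕ) (m : B →ₗ[F] F) (w : FreeMagma ℕ) :
    (dw (fun i => TS.inb F (x i)) l (TS.inl m) w).b = 0 ∧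
    ∀ v, (dw (fun i => TS.inb F (x i)) l (TS.inl m) w).l v = m (adjs x l w v) := by
  induction w using FreeMagma.rec with
  | of i =>
    rw [dw_of]
    by_cases h : i = l
    · rw [if_pos h]
      refine ⟨rfl, fun v => ?_⟩
      rw [adjs_of, if_pos h]
      rfl
    · rw [if_neg h]
      refine ⟨rfl, fun v => ?_⟩
      rw [adjs_of, if_neg h, map_zero]
      rfl
  | mul a b iha ihb =>
    rw [dw_mul, inb_evw, inb_evw]
    constructor
    · rw [TS.add_b, TS.mul_b, TS.mul_b, iha.1, ihb.1, mul_zero, zero_mul, add_zero]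
    · intro v
      rw [TS.add_l, LinearMap.add_apply, TS.mul_l_apply, TS.mul_l_apply, iha.2, ihb.2, iha.1, ihb.1,
        adjs_mul, map_sub]
      show - (0 : B →ₗ[F] F) _ + m (adjs x l b (v * evw x a)) +
        (- m (adjs x l a (v * evw x b)) + (0 : B →ₗ[F] F) _) = _
      simp only [LinearMap.zero_apply]
      ring

/-- the adjoint acts on the graph -/
theorem Gr_adjs (h : IsV B) {g : B × (B → B → B)} (hg : g ∈ Gr F B) (x : ℕ → B) (l : ℕ)
    (w : FreeMagma ℕ) :
    ((adjs x l w g.1, fun y z => g.2 (dw x l y w) z) : B × (B → B → B)) ∈ Gr F B := by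
  induction w using FreeMagma.rec generalizing g with
  | of i =>
    by_cases hi : i = l
    · have h2 : ((adjs x l (FreeMagma.of i) g.1,
          fun y z => g.2 (dw x l y (FreeMagma.of i)) z) : B × (B → B → B)) = g := by
        refine Prod.ext ?_ ?_
        · show adjs x l (FreeMagma.of i) g.1 = g.1
          rw [adjs_of, if_pos hi]
        · funext y z
          show g.2 (dw x l y (FreeMagma.of i)) z = g.2 y z
          rw [dw_of, if_pos hi]
      rw [h2]
      exact hg
    · have h2 : ((adjs x l (FreeMagma.of i) g.1,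
          fun y z => g.2 (dw x l y (FreeMagma.of i)) z) : B × (B → B → B)) = 0 := by
        refine Prod.ext ?_ ?_
        · show adjs x l (FreeMagma.of i) g.1 = 0
          rw [adjs_of, if_neg hi]
        · funext y z
          obtain ⟨f, hf⟩ := Gr_lin_y hg z
          show g.2 (dw x l y (FreeMagma.of i)) z = 0
          rw [dw_of, if_neg hi, ← hf, map_zero]
      rw [h2]
      exact (Gr F B).zero_mem
  | mul a b iha ihb =>
    have h4 := ihb (Gr_m h hg (evw x a))
    have h5 := iha (Gr_m h hg (evw x b))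
    have h6 := (Gr F B).sub_mem h4 h5
    have h7 : ((adjs x l (FreeMagma.mul a b) g.1,
          fun y z => g.2 (dw x l y (FreeMagma.mul a b)) z) : B × (B → B → B)) =
        (adjs x l b (g.1 * evw x a), fun y z => g.2 (evw x a * dw x l y b) z) -
        (adjs x l a (g.1 * evw x b), fun y z => g.2 (evw x b * dw x l y a) z) := by
      refine Prod.ext rfl ?_
      funext y z
      obtain ⟨f, hf⟩ := Gr_lin_y hg z
      show g.2 (dw x l y (FreeMagma.mul a b)) z =
        g.2 (evw x a * dw x l y b) z - g.2 (evw x b * dw x l y a) z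
      rw [dw_mul, ← hf, ← hf, ← hf, map_add, h.anti (dw x l y a) (evw x b), map_neg, sub_eq_add_neg]
    rw [h7]
    exact h6

end ts

end EpsV

end Pool.Agent.Malc
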